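import Pool.Agent.Lib.CF10.All

/-!
# Smooth cubic fourfolds which contain an elliptic ruled sextic surface
-/

set_option autoImplicit false

namespace Pool.Agent.Results.MP_deef10_nt.EllipticScrolls

open MvPolynomial

/-- The form `F` is smooth: it has no nonzero singular zero over the algebraic closure. -/
def Smooth {k : Type} [Field k] {n : ℕ} (F : MvPolynomial (Fin n) k) : Prop :=
  ∀ z : Fin n → AlgebraicClosure k, eval₂ (algebraMap k (AlgebraicClosure k)) z F = 0 →
    (∀ i, eval₂ (algebraMap k (AlgebraicClosure k)) z (pderiv i F) = 0) → z = 0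

/-- The ternary cubic form `e₁(x) = det (B(x, e_j, e_l))_(j,l)` of the trilinear form
`B(x, y, z) = ∑ B_ijl x_i y_j z_l`. -/
noncomputable def e₁ {L : Type} [Field L] (B : Fin 3 → Fin 3 → Fin 3 → L) :
    MvPolynomial (Fin 3) L :=
  (Matrix.of fun j l => ∑ i, C (B i j l) * X i).det

/-- The ternary cubic form `e₂(y) = det (B(e_i, y, e_l))_(i,l)`. -/
noncomputable def e₂ {L : Type} [Field L] (B : Fin 3 → Fin 3 → Fin 3 → L) :
    MvPolynomial (Fin 3) L :=
  (Matrix.of fun i l => ∑ j, C (B i j l) * X j).det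

/-- The ternary cubic form `e₃(z) = det (B(e_i, e_j, z))_(j,i)`. -/
noncomputable def e₃ {L : Type} [Field L] (B : Fin 3 → Fin 3 → Fin 3 → L) :
    MvPolynomial (Fin 3) L :=
  (Matrix.of fun j i => ∑ l, C (B i j l) * X l).det

/-- Let `k` be a number field, `L = k(d 0, …, d (m-1))` with `(d i)² ∈ k(d 0, …, d (i-1))` for all `i` (a tower of
quadratic extensions; `L = k` is allowed), `F` a cubic form in six variables over `k` such that the cubic fourfold
`X : F = 0` in `ℙ⁵` is smooth and has points over all completions of `k` (at nontrivial absolute values).  Suppose that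
`X` contains over `L` an elliptic ruled sextic surface: there are a basis `U 0, U 1, U 2, V 0, V 1, V 2` of `L⁶` and a
trilinear form `B` with coefficients in `L` whose three cubic forms `e₁, e₂, e₃` are smooth, such that `F` vanishes (over
the algebraic closure of `L`) at all points `∑ x_j U_j + ∑ y_j V_j` with `B(x, y, ·) = 0`, `e₁(x) = 0`, `e₂(y) = 0`.  Then:

(1) `X` has a point over `k`.

(2) Suppose that `e₁` has no zero over `L` and that `X` contains neither the plane spanned by the `U_j` nor the plane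
spanned by the `V_j` (true if `X` contains no line over `L`).  Let `S` be a finite set of pairwise inequivalent nontrivial
absolute values `v` of `k` each of which has one of the following properties: (i) `v` splits completely in `L` (all minimal
polynomials over `k` of elements of `L` split over the completion `k_v`); (ii) `v` is real (equivalent to `|σ(·)|` for an
embedding `σ` of `k` into the real numbers) and through every zero of `F` over `k_v` there is a line over `k_v` which
contains no other zero of `F` over `k_v`.  Then for every family of points over the completions at `v ∈ S` and every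
`ε > 0` there is a point of `X` over `k` which is `ε`-close to them.  (For `L = k` the condition on `S` is empty.) -/
theorem result (k L : Type) [Field k] [NumberField k] [Field L] [NumberField L] [Algebra k L]
    (hL : ∃ (m : ℕ) (d : Fin m → L),
      (∀ i, d i ^ 2 ∈ IntermediateField.adjoin k {x : L | ∃ j < i, x = d j}) ∧
      IntermediateField.adjoin k (Set.range d) = ⊤)
    (F : MvPolynomial (Fin 6) k) (hF : F.IsHomogeneous 3) (hsm : Smooth F)
    (hloc : ∀ v : AbsoluteValue k ℝ, v.IsNontrivial → ∃ z : Fin 6 → v.Completion, z ≠ 0 ∧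
      eval₂ (algebraMap k v.Completion) z F = 0)
    (U V : Fin 3 → Fin 6 → L)
    (hUV : ∀ x y : Fin 3 → L, (∀ l, ∑ j, (x j * U j l + y j * V j l) = 0) → x = 0 ∧ y = 0)
    (B : Fin 3 → Fin 3 → Fin 3 → L) (h₁ : Smooth (e₁ B)) (h₂ : Smooth (e₂ B))
    (h₃ : Smooth (e₃ B))
    (hT : ∀ x y : Fin 3 → AlgebraicClosure L,
      (∀ l, ∑ i, ∑ j, algebraMap L (AlgebraicClosure L) (B i j l) * x i * y j = 0) →
      eval₂ (algebraMap L (AlgebraicClosure L)) x (e₁ B) = 0 →
      eval₂ (algebraMap L (AlgebraicClosure L)) y (e₂ B) = 0 →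
      eval₂ ((algebraMap L (AlgebraicClosure L)).comp (algebraMap k L))
        (fun l => ∑ j, (x j * algebraMap L (AlgebraicClosure L) (U j l) +
          y j * algebraMap L (AlgebraicClosure L) (V j l))) F = 0) :
    (∃ x : Fin 6 → k, x ≠ 0 ∧ eval x F = 0) ∧
    ((∀ x : Fin 3 → L, x ≠ 0 → eval x (e₁ B) ≠ 0) →
      (∃ x : Fin 3 → L, eval₂ (algebraMap k L) (fun l => ∑ j, x j * U j l) F ≠ 0) →
      (∃ y : Fin 3 → L, eval₂ (algebraMap k L) (fun l => ∑ j, y j * V j l) F ≠ 0) →
      ∀ S : Finset (AbsoluteValue k ℝ), (∀ v ∈ S, v.IsNontrivial) →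
      (∀ v ∈ S, ∀ w ∈ S, v ≠ w → ¬ v.IsEquiv w) →
      (∀ v ∈ S, (∀ y : L, ((minpoly k y).map (algebraMap k v.Completion)).Splits) ∨
        ((∃ σ : k →+* ℝ, ∀ x y : k, v x ≤ v y ↔ |σ x| ≤ |σ y|) ∧
          ∀ z : Fin 6 → v.Completion, z ≠ 0 → eval₂ (algebraMap k v.Completion) z F = 0 →
          ∃ y : Fin 6 → v.Completion, eval₂ (algebraMap k v.Completion) y F ≠ 0 ∧
            ∀ t : v.Completion, t ≠ 0 →
              eval₂ (algebraMap k v.Completion) (fun i => z i + t * y i) F ≠ 0)) →
      ∀ z : ∀ v : AbsoluteValue k ℝ, Fin 6 → v.Completion,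
      (∀ v ∈ S, z v ≠ 0 ∧ eval₂ (algebraMap k v.Completion) (z v) F = 0) →
      ∀ ε : ℝ, 0 < ε → ∃ x : Fin 6 → k, x ≠ 0 ∧ eval x F = 0 ∧
        ∀ v ∈ S, ∀ i, ‖algebraMap k v.Completion (x i) - z v i‖ < ε) := by
  have q1 : ∀ (K : Type) [Field K] (φ : L →+* K) (x : Fin 3 → K),
      eval₂ φ x (e₁ B) = Pool.Agent.CF10.e1 ((Pool.Agent.CF10.D0 B).mp φ) x :=
    fun K _ φ x => (Pool.Agent.CF10.qX3 L K φ (Pool.Agent.CF10.D0 B)).1.1 x
  have q2 : ∀ (K : Type) [Field K] (φ : L →+* K) (x : Fin 3 → K),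
      eval₂ φ x (e₂ B) = Pool.Agent.CF10.e2 ((Pool.Agent.CF10.D0 B).mp φ) x :=
    fun K _ φ x => (Pool.Agent.CF10.qX3 L K φ (Pool.Agent.CF10.D0 B)).2.1.1 x
  have q3 : ∀ x : Fin 3 → L, eval x (e₁ B) = Pool.Agent.CF10.e1 (Pool.Agent.CF10.D0 B) x := by
    intro x
    have h := q1 L (RingHom.id L) x
    have h' : (Pool.Agent.CF10.D0 B).mp (RingHom.id L) = Pool.Agent.CF10.D0 B := by
      ext <;> rfl
    rw [h'] at h
    exact h
  have q4 : ∀ (K : Type) [Field K] (φ : L →+* K) (x y : Fin 3 → K) (l : Fin 3),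
      Pool.Agent.CF10.tB ((Pool.Agent.CF10.D0 B).mp φ) x y (Pi.single l 1) = ∑ i, ∑ j, φ (B i j l) * x i * y j := by
    intro K _ φ x y l
    have h : ∀ i j : Fin 3, Pool.Agent.CF10.Bz ((Pool.Agent.CF10.D0 B).mp φ) (Pi.single l 1) j i = φ (B i j l) := by
      intro i j
      simp [Pool.Agent.CF10.Bz, Pool.Agent.CF10.Dat.mp, Pool.Agent.CF10.D0, Pi.single_apply]
    simp only [Pool.Agent.CF10.tB, Pool.Agent.CF10.dt, Matrix.mulVec, dotProduct, h, Fin.sum_univ_three]
    ring
  have hT' := Pool.Agent.CF10.qFinL k L hL F B U V hF hsm hloc (fun x y hxy => hUV x y (congrFun hxy)) h₁ h₂ h₃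
    (fun x y g1 g2 g3 => by
      rw [eval₂_map]
      refine hT x y (fun l => ?_) ?_ ?_
      · rw [← q4]
        exact g1 _
      · rw [q1]
        exact g2
      · rw [q2]
        exact g3)
  have p1 : ∀ x : Fin 3 → L, Pool.Agent.CF10.pt U V x 0 = fun l => ∑ j, x j * U j l := by
    intro x
    ext l
    simp [Pool.Agent.CF10.pt]
  have p2 : ∀ y : Fin 3 → L, Pool.Agent.CF10.pt U V 0 y = fun l => ∑ j, y j * V j l := by
    intro x
    ext l
    simp [Pool.Agent.CF10.pt]
  refine ⟨hT'.1, fun a1 a2 a3 => ?_⟩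
  refine hT'.2 (fun x hx => ?_) ?_ ?_
  · rw [← q3]
    exact a1 x hx
  · obtain ⟨x, hx⟩ := a2
    refine ⟨x, ?_⟩
    rw [eval_map, p1]
    exact hx
  · obtain ⟨y, hy⟩ := a3
    refine ⟨y, ?_⟩
    rw [eval_map, p2]
    exact hy

end Pool.Agent.Results.MP_deef10_nt.EllipticScrolls
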