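import Pool.Agent.Lib.CF9.All

/-!
# Weak approximation for smooth cubic hypersurfaces with a rational point
-/

set_option autoImplicit false

namespace Pool.Agent.Results.MP_deef10_nt.LocalLines

open MvPolynomial

/-- Let `k` be a number field, `n ≥ 4` and `F` a cubic form in `n + 1` variables over `k` such that the cubic hypersurface `X`:
`F = 0` in `ℙⁿ` is smooth and has a point `p` over `k`.  Let `S` be a finite set of pairwise inequivalent nontrivial
absolute values `v` of `k` and `z v` a point of `X` over the completion `k_v`, for every `v ∈ S`, such that one of the following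
is true for each `v ∈ S`.

(1) `v` is nonarchimedean; there is an extension field `K` of `k_v`, `K = k_v(d 0, …, d (m-1))` with
`(d i)² ∈ k_v(d 0, …, d (i-1))` for all `i` (a tower of quadratic extensions, `K = k_v` is allowed), such that `X` contains
a line defined over `K` (spanned by `l1, l2 ∈ K^(n+1)`); and `n ≥ 6` or (A) is true.

(2) `v` is archimedean (equivalent to `‖σ(·)‖` for an embedding `σ` of `k` into the complex numbers), and all elements of `k_v`
are squares (i.e. `v` is complex) or (A) is true.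

(A) The second fundamental form of `X` at `z v` (the quadratic form `∑ e_i e_j ∂_i ∂_j F(z v)` on the tangent space
`∑ e_j ∂_j F(z v) = 0`) has a zero over `k_v` which is not in its kernel.

Then for every `ε > 0` there is a point of `X` over `k` which is `ε`-close to `z v` for all `v ∈ S`. -/
theorem result (k : Type) [Field k] [NumberField k] (n : ℕ) (hn : 4 ≤ n)
    (F : MvPolynomial (Fin (n + 1)) k) (hF : F.IsHomogeneous 3)
    (hsm : ∀ z : Fin (n + 1) → AlgebraicClosure k,
      eval₂ (algebraMap k (AlgebraicClosure k)) z F = 0 →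
      (∀ i, eval₂ (algebraMap k (AlgebraicClosure k)) z (pderiv i F) = 0) → z = 0)
    (p : Fin (n + 1) → k) (hp : p ≠ 0) (hpF : eval p F = 0)
    (S : Finset (AbsoluteValue k ℝ)) (hS : ∀ v ∈ S, v.IsNontrivial)
    (hS' : ∀ v ∈ S, ∀ w ∈ S, v ≠ w → ¬ v.IsEquiv w)
    (z : ∀ v : AbsoluteValue k ℝ, Fin (n + 1) → v.Completion)
    (hz : ∀ v ∈ S, z v ≠ 0 ∧ eval₂ (algebraMap k v.Completion) (z v) F = 0)
    (hv : ∀ v ∈ S, ((∀ x y : k, v (x + y) ≤ max (v x) (v y)) ∧
      (∃ (K : Type) (_ : Field K) (_ : Algebra v.Completion K),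
        (∃ (m : ℕ) (d : Fin m → K),
          (∀ i, d i ^ 2 ∈ IntermediateField.adjoin v.Completion {x : K | ∃ j < i, x = d j}) ∧
          IntermediateField.adjoin v.Completion (Set.range d) = ⊤) ∧
        ∃ l1 l2 : Fin (n + 1) → K, (∀ s t : K,
          eval₂ ((algebraMap v.Completion K).comp (algebraMap k v.Completion))
            (fun i => s * l1 i + t * l2 i) F = 0) ∧
          ∀ s t : K, (∀ i, s * l1 i + t * l2 i = 0) → s = 0 ∧ t = 0) ∧
      (6 ≤ n ∨ ∃ e g : Fin (n + 1) → v.Completion,
        ∑ j, e j * eval₂ (algebraMap k v.Completion) (z v) (pderiv j F) = 0 ∧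
        ∑ i, ∑ j, e i * e j *
          eval₂ (algebraMap k v.Completion) (z v) (pderiv i (pderiv j F)) = 0 ∧
        ∑ j, g j * eval₂ (algebraMap k v.Completion) (z v) (pderiv j F) = 0 ∧
        ∑ i, ∑ j, e i * g j *
          eval₂ (algebraMap k v.Completion) (z v) (pderiv i (pderiv j F)) ≠ 0)) ∨
      ((∃ σ : k →+* ℂ, ∀ x y : k, v x ≤ v y ↔ ‖σ x‖ ≤ ‖σ y‖) ∧
      ((∀ x : v.Completion, IsSquare x) ∨ ∃ e g : Fin (n + 1) → v.Completion,
        ∑ j, e j * eval₂ (algebraMap k v.Completion) (z v) (pderiv j F) = 0 ∧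
        ∑ i, ∑ j, e i * e j *
          eval₂ (algebraMap k v.Completion) (z v) (pderiv i (pderiv j F)) = 0 ∧
        ∑ j, g j * eval₂ (algebraMap k v.Completion) (z v) (pderiv j F) = 0 ∧
        ∑ i, ∑ j, e i * g j *
          eval₂ (algebraMap k v.Completion) (z v) (pderiv i (pderiv j F)) ≠ 0)))
    (ε : ℝ) (hε : 0 < ε) :
    ∃ x : Fin (n + 1) → k, x ≠ 0 ∧ eval x F = 0 ∧
      ∀ v ∈ S, ∀ i, ‖algebraMap k v.Completion (x i) - z v i‖ < ε := by
  refine Pool.Agent.CF9.qFinQ k (n + 1) F (by omega) hF hsm p hp hpF S hS hS' z hz ?_ ε hε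
  intro v hvS
  rcases hv v hvS with ⟨h1, h2, h3⟩ | h
  · exact Or.inl ⟨h1, h2, h3.imp_left fun h => by omega⟩
  · exact Or.inr h

end Pool.Agent.Results.MP_deef10_nt.LocalLines
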