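import Pool.Agent.Lib.CF8.All

/-!
# Smooth cubic hypersurfaces with conjugate linear spaces over towers of quadratic extensions
-/

set_option autoImplicit false

namespace Pool.Agent.Results.MP_deef10_nt.TowerSpaces

open MvPolynomial

private theorem aux (k L K : Type) [Field k] [NumberField k] [Field L] [NumberField L] [Field K]
    [Algebra k L] [Algebra L K]
    (hL : ∃ (m : ℕ) (d : Fin m → L),
      (∀ i, d i ^ 2 ∈ IntermediateField.adjoin k {x : L | ∃ j < i, x = d j}) ∧
      IntermediateField.adjoin k (Set.range d) = ⊤)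
    (hK : Module.finrank L K = 3) (N m : ℕ) (hN : 3 ≤ N) (hm : m = N + N)
    (F : MvPolynomial (Fin m) k) (hF : F.IsHomogeneous 3)
    (hsm : ∀ z : Fin m → AlgebraicClosure k,
      eval₂ (algebraMap k (AlgebraicClosure k)) z F = 0 →
      (∀ i, eval₂ (algebraMap k (AlgebraicClosure k)) z (pderiv i F) = 0) → z = 0)
    (P : Fin N → Fin m → K)
    (hP : ∀ c : Fin N → K,
      eval₂ ((algebraMap L K).comp (algebraMap k L)) (fun l => ∑ j, c j * P j l) F = 0)
    (hskew : ∀ σ σ' : K →ₐ[L] AlgebraicClosure L, σ ≠ σ' → ∀ c d : Fin N → AlgebraicClosure L,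
      (∀ l, ∑ j, c j * σ (P j l) = ∑ j, d j * σ' (P j l)) → c = 0 ∧ d = 0)
    (hloc : ∀ v : AbsoluteValue k ℝ, v.IsNontrivial → ∃ z : Fin m → v.Completion, z ≠ 0 ∧
      eval₂ (algebraMap k v.Completion) z F = 0)
    (S : Finset (AbsoluteValue k ℝ)) (hS : ∀ v ∈ S, v.IsNontrivial)
    (hS' : ∀ v ∈ S, ∀ w ∈ S, v ≠ w → ¬ v.IsEquiv w)
    (hS'' : ∀ v ∈ S, (∀ y : L, ((minpoly k y).map (algebraMap k v.Completion)).Splits) ∨
      (4 ≤ N ∧ ∀ x y : k, v (x + y) ≤ max (v x) (v y)) ∨
      ((∃ σ : k →+* ℝ, ∀ x y : k, v x ≤ v y ↔ |σ x| ≤ |σ y|) ∧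
        ∀ z : Fin m → v.Completion, z ≠ 0 → eval₂ (algebraMap k v.Completion) z F = 0 →
        ∃ y : Fin m → v.Completion, eval₂ (algebraMap k v.Completion) y F ≠ 0 ∧
          ∀ t : v.Completion, t ≠ 0 →
            eval₂ (algebraMap k v.Completion) (fun i => z i + t * y i) F ≠ 0))
    (z : ∀ v : AbsoluteValue k ℝ, Fin m → v.Completion)
    (hz : ∀ v ∈ S, z v ≠ 0 ∧ eval₂ (algebraMap k v.Completion) (z v) F = 0)
    (ε : ℝ) (hε : 0 < ε) :
    ∃ x : Fin m → k, x ≠ 0 ∧ eval x F = 0 ∧
      ∀ v ∈ S, ∀ i, ‖algebraMap k v.Completion (x i) - z v i‖ < ε := by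
  subst hm
  refine Pool.Agent.CF8.qFin8 k L K hL hK N F hN hF hsm hloc P ⟨fun c => ?_, hskew⟩
    S hS hS' hS'' z hz ε hε
  rw [eval₂_map]
  exact hP c

/-- Let `k` be a number field, `L = k(d 0, …, d (m-1))` with `(d i)² ∈ k(d 0, …, d (i-1))` for all `i` (a tower of
quadratic extensions; `L = k` is allowed), `K` a cubic extension of `L`, `N ≥ 3`, `n = 2N - 1` and `F` a cubic form in
`n + 1` variables over `k` such that the cubic hypersurface `F = 0` in `ℙⁿ` is smooth and contains the linear space over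
`K` of dimension `N - 1` which is spanned by `P 0, …, P (N - 1) ∈ K^(n+1)`; assume that the three conjugates over `L` of
this linear space are pairwise skew.  Suppose that `F = 0` has points over all completions of `k` (at nontrivial absolute
values).
Let `S` be a finite set of pairwise
inequivalent nontrivial absolute values `v` of `k` each of which has one of the following properties: (i) `v` splits
completely in `L` (all minimal polynomials over `k` of elements of `L` split over the completion `k_v`); (ii) `v` is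
nonarchimedean and `N ≥ 4`; (iii) `v` is real (equivalent to `|σ(·)|` for an embedding `σ` of `k` into the real numbers) and
through every zero of `F` over `k_v` there is a line over `k_v` which contains no other zero of `F` over `k_v`.  Then for
every family of points over the completions at `v ∈ S` and every `ε > 0` there is a point over `k` which is `ε`-close to
them.  (For `S = ∅` this is the
Hasse principle; for `L = k` the condition on `S` is empty.) -/
theorem result (k L K : Type) [Field k] [NumberField k] [Field L] [NumberField L] [Field K]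
    [Algebra k L] [Algebra L K]
    (hL : ∃ (m : ℕ) (d : Fin m → L),
      (∀ i, d i ^ 2 ∈ IntermediateField.adjoin k {x : L | ∃ j < i, x = d j}) ∧
      IntermediateField.adjoin k (Set.range d) = ⊤)
    (hK : Module.finrank L K = 3) (N n : ℕ) (hN : 3 ≤ N) (hn : n + 1 = 2 * N)
    (F : MvPolynomial (Fin (n + 1)) k) (hF : F.IsHomogeneous 3)
    (hsm : ∀ z : Fin (n + 1) → AlgebraicClosure k,
      eval₂ (algebraMap k (AlgebraicClosure k)) z F = 0 →
      (∀ i, eval₂ (algebraMap k (AlgebraicClosure k)) z (pderiv i F) = 0) → z = 0)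
    (P : Fin N → Fin (n + 1) → K)
    (hP : ∀ c : Fin N → K,
      eval₂ ((algebraMap L K).comp (algebraMap k L)) (fun l => ∑ j, c j * P j l) F = 0)
    (hskew : ∀ σ σ' : K →ₐ[L] AlgebraicClosure L, σ ≠ σ' → ∀ c d : Fin N → AlgebraicClosure L,
      (∀ l, ∑ j, c j * σ (P j l) = ∑ j, d j * σ' (P j l)) → c = 0 ∧ d = 0)
    (hloc : ∀ v : AbsoluteValue k ℝ, v.IsNontrivial → ∃ z : Fin (n + 1) → v.Completion, z ≠ 0 ∧
      eval₂ (algebraMap k v.Completion) z F = 0)
    (S : Finset (AbsoluteValue k ℝ)) (hS : ∀ v ∈ S, v.IsNontrivial)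
    (hS' : ∀ v ∈ S, ∀ w ∈ S, v ≠ w → ¬ v.IsEquiv w)
    (hS'' : ∀ v ∈ S, (∀ y : L, ((minpoly k y).map (algebraMap k v.Completion)).Splits) ∨
      (4 ≤ N ∧ ∀ x y : k, v (x + y) ≤ max (v x) (v y)) ∨
      ((∃ σ : k →+* ℝ, ∀ x y : k, v x ≤ v y ↔ |σ x| ≤ |σ y|) ∧
        ∀ z : Fin (n + 1) → v.Completion, z ≠ 0 → eval₂ (algebraMap k v.Completion) z F = 0 →
        ∃ y : Fin (n + 1) → v.Completion, eval₂ (algebraMap k v.Completion) y F ≠ 0 ∧
          ∀ t : v.Completion, t ≠ 0 →
            eval₂ (algebraMap k v.Completion) (fun i => z i + t * y i) F ≠ 0))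
    (z : ∀ v : AbsoluteValue k ℝ, Fin (n + 1) → v.Completion)
    (hz : ∀ v ∈ S, z v ≠ 0 ∧ eval₂ (algebraMap k v.Completion) (z v) F = 0)
    (ε : ℝ) (hε : 0 < ε) :
    ∃ x : Fin (n + 1) → k, x ≠ 0 ∧ eval x F = 0 ∧
      ∀ v ∈ S, ∀ i, ‖algebraMap k v.Completion (x i) - z v i‖ < ε :=
  aux k L K hL hK N (n + 1) hN (by omega) F hF hsm P hP hskew hloc S hS hS' hS'' z hz ε hε

end Pool.Agent.Results.MP_deef10_nt.TowerSpaces
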